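import Mathlib

/-!
# RS module Count: Markov inequality for the number of bad indices
-/

open MeasureTheory Filter Topology

namespace Pool.Agent.H46.RS

open Classical in
theorem markov_count {Ω : Type*} [MeasurableSpace Ω] (P : Measure Ω) [IsProbabilityMeasure P]
    {α : Type*} (I : Finset α) (U : α → Set Ω) (hU : ∀ w ∈ I, MeasurableSet (U w)) {c : ℝ}
    (hc0 : 0 ≤ c) (hc : ∀ w ∈ I, P.real (U w) ≤ c) :
    P.real {ω | I.card < 8 * (I.filter fun w => ω ∈ U w).card} ≤ 8 * c := by
  rcases I.eq_empty_or_nonempty with rfl | hne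
  · have h0 : {ω : Ω | (∅ : Finset α).card < 8 * ((∅ : Finset α).filter fun w => ω ∈ U w).card}
        = ∅ := by
      ext ω
      simp
    rw [h0, measureReal_empty]
    positivity
  have hpos : (0 : ℝ) < I.card := by exact_mod_cast hne.card_pos
  set f : Ω → ℝ := fun ω => ∑ w ∈ I, (U w).indicator (fun _ => (1 : ℝ)) ω with hf
  have hfc : ∀ ω, f ω = ((I.filter fun w => ω ∈ U w).card : ℝ) := by
    intro ω
    simp only [hf, Set.indicator_apply]
    rw [Finset.sum_ite, Finset.sum_const_zero, add_zero, Finset.sum_const, nsmul_eq_mul, mul_one]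
  have hint : ∀ w ∈ I, Integrable ((U w).indicator fun _ => (1 : ℝ)) P := fun w hw =>
    (integrable_const (1 : ℝ)).indicator (hU w hw)
  have h1 : ∫ ω, f ω ∂P ≤ I.card * c := by
    rw [hf, integral_finsetSum I hint]
    calc ∑ w ∈ I, ∫ ω, (U w).indicator (fun _ => (1 : ℝ)) ω ∂P
        = ∑ w ∈ I, P.real (U w) := by
          refine Finset.sum_congr rfl fun w hw => ?_
          rw [integral_indicator_const _ (hU w hw), smul_eq_mul, mul_one]
      _ ≤ ∑ w ∈ I, c := Finset.sum_le_sum hc
      _ = I.card * c := by rw [Finset.sum_const, nsmul_eq_mul]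
  have h2 := mul_meas_ge_le_integral_of_nonneg (μ := P) (f := f)
    (Filter.Eventually.of_forall fun ω => by rw [hfc]; positivity)
    (integrable_finsetSum I hint) (I.card / 8 : ℝ)
  have h3 : {ω | I.card < 8 * (I.filter fun w => ω ∈ U w).card}
      ⊆ {ω | (I.card / 8 : ℝ) ≤ f ω} := by
    intro ω hω
    have h4 : I.card < 8 * (I.filter fun w => ω ∈ U w).card := hω
    show (I.card / 8 : ℝ) ≤ f ω
    rw [hfc]
    have h5 : (I.card : ℝ) < 8 * ((I.filter fun w => ω ∈ U w).card : ℝ) := by exact_mod_cast h4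
    linarith
  have h4 := measureReal_mono (μ := P) h3 (measure_ne_top _ _)
  have h5 : (I.card : ℝ) / 8 * P.real {ω | (I.card / 8 : ℝ) ≤ f ω} ≤ I.card * c := h2.trans h1
  have h6 : P.real {ω | (I.card / 8 : ℝ) ≤ f ω} ≤ 8 * c := by
    have h7 : (I.card : ℝ) * (P.real {ω | (I.card / 8 : ℝ) ≤ f ω} / 8) ≤ I.card * c := by
      calc (I.card : ℝ) * (P.real {ω | (I.card / 8 : ℝ) ≤ f ω} / 8)
          = (I.card : ℝ) / 8 * P.real {ω | (I.card / 8 : ℝ) ≤ f ω} := by ring
        _ ≤ I.card * c := h5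
    have h8 := le_of_mul_le_mul_left h7 hpos
    linarith
  exact h4.trans h6

end Pool.Agent.H46.RS
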