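import Pool.Agent.H47.GM.Basic
import Pool.Agent.H47.GM.Mu
import Pool.Agent.H41.QC.Trans
import Pool.Agent.H41.QC.Exit

/-!
# RS: definitions (road systems for every supercritical parameter)

Part of helper17's project QA on MP_a352f3_pr. `L = s * N` is the side of the blocks, `Bx (sc L z) A` the
region of the block `z`, the sub-boxes of the block `0` are the boxes `Bx (sc s w) s` with `w ∈ Bx 0 N`.
-/

open MeasureTheory Filter Topology
open Pool.Agent.H17.IIC Pool.Agent.H41.QC Pool.Agent.H47.GM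

namespace Pool.Agent.H46.RS

variable {d : ℕ}

/-- joined by an open walk inside `S` -/
def JIn (κ : Kind) (ω : El d → Bool) (S : Set (V d)) (x y : V d) : Prop :=
  ∃ w : (Gr κ ω).Walk x y, ∀ z ∈ w.support, z ∈ S

/-- joined by an open walk inside `S` of length at most `r` -/
def JInL (κ : Kind) (ω : El d → Bool) (S : Set (V d)) (r : ℝ) (x y : V d) : Prop :=
  ∃ w : (Gr κ ω).Walk x y, (∀ z ∈ w.support, z ∈ S) ∧ (w.length : ℝ) ≤ r

/-- the elements inside a set of vertices -/
def elIn (S : Set (V d)) : Set (El d) := {e | ∀ v ∈ e, v ∈ S}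

/-- almost sure uniqueness of the infinite cluster -/
def Uniq (κ : Kind) (d : ℕ) (p : unitInterval) : Prop :=
  ∀ᵐ ω ∂(prodBern (El d) p), ∀ x y : V d, {z | (Gr κ ω).Reachable x z}.Infinite →
    {z | (Gr κ ω).Reachable y z}.Infinite → (Gr κ ω).Reachable x y

/-- scaled vertex -/
def sc (s : ℕ) (w : V d) : V d := fun i => (s : ℤ) * w i

/-- the configuration seen from `a` -/
def shC (a : V d) (ω : El d → Bool) : El d → Bool := fun e => ω (shE a e)

/-- two vertices near `c`, both joined to distance `L'` inside the box of radius `L'`, but not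
joined to each other in this box -/
def NU (κ : Kind) (c : V d) (l L' : ℕ) : Set (El d → Bool) :=
  {ω | ∃ x ∈ Bx c l, ∃ y ∈ Bx c l,
    (∃ u, (∃ i, |u i - c i| = L') ∧ JIn κ ω (Bx c L' : Set (V d)) x u) ∧
    (∃ u, (∃ i, |u i - c i| = L') ∧ JIn κ ω (Bx c L' : Set (V d)) y u) ∧
    ¬ JIn κ ω (Bx c L' : Set (V d)) x y}

/-- the sub-box `w` is visited by the cluster of `v` in the box of radius `A` -/
def vis (κ : Kind) (ω : El d → Bool) (A s : ℕ) (v w : V d) : Prop :=
  ∃ y ∈ Bx (sc s w) s, JIn κ ω (Bx (0 : V d) A : Set (V d)) y v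

open Classical in
/-- `v` is a core vertex: its cluster in the box of radius `A` visits 7/8 of the sub-boxes -/
def core (κ : Kind) (s N A : ℕ) (ω : El d → Bool) (v : V d) : Prop :=
  v ∈ Bx (0 : V d) A ∧
    8 * ((Bx (0 : V d) N).filter fun w => ¬ vis κ ω A s v w).card ≤ (Bx (0 : V d) N).card

open Classical in
/-- the good event of the block `0` -/
def G0 (κ : Kind) (d s N L' A : ℕ) : Set (El d → Bool) :=
  {ω | (∃ v, core κ s N A ω v) ∧
    8 * ((Bx (0 : V d) N).filter fun w => ω ∈ NU κ (sc s w) s L').card ≤ (Bx (0 : V d) N).card}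

open Classical in
/-- the core vertex of the block `0` -/
noncomputable def h0 (κ : Kind) (s N A : ℕ) (ω : El d → Bool) : V d :=
  if h : ∃ v, core κ s N A ω v then h.choose else 0

/-- local block systems: `G0` is the good event of the block `0`, `h0` its core vertex; the other
blocks by translation -/
structure BlockSys (κ : Kind) (d : ℕ) (p : unitInterval) (ρ : ℝ) where
  L : ℕ
  A : ℕ
  G : Set (El d → Bool)
  h : (El d → Bool) → V d
  one_le : 1 ≤ L
  L_le : L ≤ A
  loc_G : On (elIn (Bx (0 : V d) A : Set (V d))) G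
  loc_h : ∀ ω ω' : El d → Bool, (∀ e ∈ elIn (Bx (0 : V d) A : Set (V d)), ω e = ω' e) → h ω = h ω'
  h_mem : ∀ ω, h ω ∈ Bx (0 : V d) A
  h_open : κ = .site → ∀ ω ∈ G, ω s(h ω, h ω) = true
  joined : ∀ (ω : El d → Bool) (z z' : V d), LatAdj z z' → shC (sc L z) ω ∈ G →
    shC (sc L z') ω ∈ G →
    JIn κ ω ((Bx (sc L z) A : Set (V d)) ∪ (Bx (sc L z') A : Set (V d)))
      (h (shC (sc L z) ω) + sc L z) (h (shC (sc L z') ω) + sc L z')
  prob : ∀ B : Finset (V d),
    (prodBern (El d) p).real {ω | ∀ z ∈ B, shC (sc L z) ω ∉ G} ≤ ρ ^ B.card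

/-! ### basic facts -/

lemma JIn.refl {κ : Kind} {ω : El d → Bool} {S : Set (V d)} {x : V d} (h : x ∈ S) :
    JIn κ ω S x x :=
  ⟨SimpleGraph.Walk.nil, fun z hz => by
    rw [SimpleGraph.Walk.support_nil, List.mem_singleton] at hz
    rw [hz]; exact h⟩

lemma JIn.symm {κ : Kind} {ω : El d → Bool} {S : Set (V d)} {x y : V d} (h : JIn κ ω S x y) :
    JIn κ ω S y x := by
  obtain ⟨w, hw⟩ := h
  refine ⟨w.reverse, fun z hz => hw z ?_⟩
  rwa [SimpleGraph.Walk.support_reverse, List.mem_reverse] at hz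

lemma JIn.trans {κ : Kind} {ω : El d → Bool} {S : Set (V d)} {x y z : V d}
    (h : JIn κ ω S x y) (h' : JIn κ ω S y z) : JIn κ ω S x z := by
  obtain ⟨w, hw⟩ := h
  obtain ⟨w', hw'⟩ := h'
  refine ⟨w.append w', fun u hu => ?_⟩
  rw [SimpleGraph.Walk.mem_support_append_iff] at hu
  rcases hu with hu | hu
  · exact hw u hu
  · exact hw' u hu

lemma JIn.mono {κ : Kind} {ω : El d → Bool} {S T : Set (V d)} {x y : V d} (h : JIn κ ω S x y)
    (hST : S ⊆ T) : JIn κ ω T x y := by
  obtain ⟨w, hw⟩ := h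
  exact ⟨w, fun z hz => hST (hw z hz)⟩

lemma JIn.left {κ : Kind} {ω : El d → Bool} {S : Set (V d)} {x y : V d} (h : JIn κ ω S x y) :
    x ∈ S := by
  obtain ⟨w, hw⟩ := h
  exact hw x w.start_mem_support

lemma JIn.right {κ : Kind} {ω : El d → Bool} {S : Set (V d)} {x y : V d} (h : JIn κ ω S x y) :
    y ∈ S := by
  obtain ⟨w, hw⟩ := h
  exact hw y w.end_mem_support

lemma JIn.reach {κ : Kind} {ω : El d → Bool} {S : Set (V d)} {x y : V d} (h : JIn κ ω S x y) :
    (Gr κ ω).Reachable x y := by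
  obtain ⟨w, -⟩ := h
  exact ⟨w⟩

/-- the open graph inside `S` only depends on the elements inside `S` -/
lemma gr_congr {κ : Kind} {ω ω' : El d → Bool} {S : Set (V d)}
    (h : ∀ e ∈ elIn S, ω e = ω' e) {x y : V d} (hx : x ∈ S) (hy : y ∈ S)
    (hxy : (Gr κ ω).Adj x y) : (Gr κ ω').Adj x y := by
  obtain ⟨h1, h2⟩ := hxy
  refine ⟨h1, ?_⟩
  cases κ with
  | bond =>
    show ω' s(x, y) = true
    rw [← h s(x, y) ?_]
    · exact h2
    · intro v hv
      rw [Sym2.mem_iff] at hv
      rcases hv with rfl | rfl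
      · exact hx
      · exact hy
  | site =>
    show ω' s(x, x) = true ∧ ω' s(y, y) = true
    rw [← h s(x, x) ?_, ← h s(y, y) ?_]
    · exact h2
    · intro v hv
      rw [Sym2.mem_iff] at hv
      rcases hv with rfl | rfl <;> exact hy
    · intro v hv
      rw [Sym2.mem_iff] at hv
      rcases hv with rfl | rfl <;> exact hx

lemma JIn.congr {κ : Kind} {ω ω' : El d → Bool} {S : Set (V d)}
    (h : ∀ e ∈ elIn S, ω e = ω' e) {x y : V d} (hxy : JIn κ ω S x y) : JIn κ ω' S x y := by
  obtain ⟨w, hw⟩ := hxy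
  induction w with
  | nil => exact JIn.refl (hw _ (SimpleGraph.Walk.start_mem_support _))
  | @cons a b c hab p ih =>
    have ha : a ∈ S := hw a (SimpleGraph.Walk.start_mem_support _)
    have hp : ∀ z ∈ p.support, z ∈ S := fun z hz => hw z (by
      rw [SimpleGraph.Walk.support_cons]; exact List.mem_cons_of_mem _ hz)
    have hb : b ∈ S := hp b p.start_mem_support
    have h1 := gr_congr h ha hb hab
    obtain ⟨w', hw'⟩ := ih hp
    refine ⟨SimpleGraph.Walk.cons h1 w', fun z hz => ?_⟩
    rw [SimpleGraph.Walk.support_cons, List.mem_cons] at hz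
    rcases hz with rfl | hz
    · exact ha
    · exact hw' z hz

lemma JIn.iff_congr {κ : Kind} {ω ω' : El d → Bool} {S : Set (V d)}
    (h : ∀ e ∈ elIn S, ω e = ω' e) {x y : V d} : JIn κ ω S x y ↔ JIn κ ω' S x y :=
  ⟨JIn.congr h, JIn.congr fun e he => (h e he).symm⟩

lemma elIn_mono {S T : Set (V d)} (h : S ⊆ T) : elIn S ⊆ elIn T := fun _ he v hv => h (he v hv)

/-- elements inside a finite set: a finite set -/
lemma elIn_finite (S : Finset (V d)) : (elIn (S : Set (V d))).Finite := by
  classical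
  refine Set.Finite.subset (Finset.finite_toSet ((S ×ˢ S).image fun q => s(q.1, q.2))) ?_
  intro e he
  induction e using Sym2.ind with
  | _ a b =>
    rw [Finset.mem_coe, Finset.mem_image]
    exact ⟨(a, b), Finset.mem_product.2 ⟨he a (Sym2.mem_mk_left _ _), he b (Sym2.mem_mk_right _ _)⟩,
      rfl⟩

/-- local events are measurable -/
lemma On.meas {S : Finset (V d)} {G : Set (El d → Bool)} (h : On (elIn (S : Set (V d))) G) :
    MeasurableSet G := by
  refine On.measurableSet (Λ := (elIn_finite S).toFinset) ?_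
  rwa [Set.Finite.coe_toFinset]

/-! ### translations -/

lemma shC_add (a b : V d) (ω : El d → Bool) : shC a (shC b ω) = shC (a + b) ω := by
  funext e
  unfold shC shE
  rw [Sym2.map_map]
  congr 2
  funext x
  simp [add_assoc]

lemma shC_zero (ω : El d → Bool) : shC 0 ω = ω := by
  funext e
  unfold shC shE
  simp

lemma measurable_shC (a : V d) : Measurable (shC a : (El d → Bool) → El d → Bool) :=
  measurable_pi_lambda _ fun _ => measurable_pi_apply _

lemma shC_real (p : unitInterval) (a : V d) {G : Set (El d → Bool)} (hG : MeasurableSet G) :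
    (prodBern (El d) p).real {ω | shC a ω ∈ G} = (prodBern (El d) p).real G := by
  have h := prodBern_shift (d := d) p a
  have h1 : (prodBern (El d) p).map (shC a) = prodBern (El d) p := h
  conv_rhs => rw [← h1]
  rw [map_measureReal_apply (measurable_shC a) hG]
  rfl

lemma latAdj_add {x y : V d} (a : V d) : LatAdj (x + a) (y + a) ↔ LatAdj x y := by
  unfold LatAdj
  constructor
  · rintro ⟨s, hs⟩
    refine ⟨s, add_right_cancel (b := a) ?_⟩
    rw [hs]
    abel
  · rintro ⟨s, rfl⟩
    exact ⟨s, by abel⟩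

lemma gr_shift {κ : Kind} {ω : El d → Bool} {a x y : V d} :
    (Gr κ (shC a ω)).Adj x y ↔ (Gr κ ω).Adj (x + a) (y + a) := by
  have h2 : ∀ u v : V d, shC a ω s(u, v) = ω s(u + a, v + a) := by
    intro u v
    rfl
  cases κ with
  | bond =>
    show (LatAdj x y ∧ shC a ω s(x, y) = true) ↔
      (LatAdj (x + a) (y + a) ∧ ω s(x + a, y + a) = true)
    rw [latAdj_add, h2]
  | site =>
    show (LatAdj x y ∧ shC a ω s(x, x) = true ∧ shC a ω s(y, y) = true) ↔
      (LatAdj (x + a) (y + a) ∧ ω s(x + a, x + a) = true ∧ ω s(y + a, y + a) = true)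
    rw [latAdj_add, h2, h2]

lemma jIn_shift_aux {κ : Kind} {ω : El d → Bool} {a : V d} {S T : Set (V d)}
    (hST : ∀ x ∈ S, x + a ∈ T) {x y : V d} (h : JIn κ (shC a ω) S x y) :
    JIn κ ω T (x + a) (y + a) := by
  obtain ⟨w, hw⟩ := h
  induction w with
  | nil => exact JIn.refl (hST _ (hw _ (SimpleGraph.Walk.start_mem_support _)))
  | @cons u v c huv p ih =>
    have hp : ∀ z ∈ p.support, z ∈ S := fun z hz => hw z (by
      rw [SimpleGraph.Walk.support_cons]; exact List.mem_cons_of_mem _ hz)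
    have h1 := gr_shift.1 huv
    have hu : u ∈ S := hw u (SimpleGraph.Walk.start_mem_support _)
    have hv : v ∈ S := hp v p.start_mem_support
    refine JIn.trans ⟨SimpleGraph.Walk.cons h1 SimpleGraph.Walk.nil, ?_⟩ (ih hp)
    intro z hz
    rw [SimpleGraph.Walk.support_cons, SimpleGraph.Walk.support_nil, List.mem_cons,
      List.mem_singleton] at hz
    rcases hz with rfl | rfl
    · exact hST _ hu
    · exact hST _ hv

lemma jIn_shift {κ : Kind} {ω : El d → Bool} {a c : V d} {r : ℕ} {x y : V d} :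
    JIn κ (shC a ω) (Bx c r : Set (V d)) x y ↔
      JIn κ ω (Bx (c + a) r : Set (V d)) (x + a) (y + a) := by
  constructor
  · refine jIn_shift_aux fun u hu => ?_
    rw [Finset.mem_coe, mem_Bx] at hu ⊢
    intro i
    have := hu i
    simpa using this
  · intro h
    have e1 : ω = shC (-a) (shC a ω) := by
      rw [shC_add]
      simp [shC_zero]
    rw [e1] at h
    have h2 := jIn_shift_aux (T := (Bx c r : Set (V d))) (fun u hu => ?_) h
    · simpa using h2
    · rw [Finset.mem_coe, mem_Bx] at hu ⊢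
      intro i
      have := hu i
      simp only [Pi.add_apply, Pi.neg_apply] at this ⊢
      have e2 : u i + -a i - c i = u i - (c i + a i) := by ring
      rw [e2]
      exact this

end Pool.Agent.H46.RS
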