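import Pool.Agent.H46.RS.Defs

/-!
# RS module JoinAdj: the cores of adjacent good blocks are joined

`I_z = {w | ∀ i, |w i - N z i| ≤ N}` (the indices of the sub-boxes of block `z`, in absolute position
`sc s w`). For adjacent `z, z'` the intersection has at least half of the `(2N+1)^d` elements; at most
1/8 are not visited by the core of `z`, 1/8 not by that of `z'`, 1/8 are in `NU`. So some `w` in the intersection
is visited by both (vertices `y, y'` of `Bx (sc s w) s`) and not in `NU`. Both cores visit a sub-box `w''` of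
`I_z` (resp. `I_z'`) outside `Bx w M` (there are at most `(2M+1)^d ≤ (2N+1)^d / 2` inside), so `y` and `y'`
are joined to vertices outside `Bx (sc s w) L'`, hence to the shell of this box inside it (first exit). Not `NU`:
`y` and `y'` are joined inside `Bx (sc s w) L'`, contained in the region of `z` as `s * N + L' ≤ A`.
-/

open MeasureTheory Filter Topology
open Pool.Agent.H17.IIC Pool.Agent.H41.QC Pool.Agent.H47.GM

namespace Pool.Agent.H46.RS

variable {d : ℕ}

theorem G0_local (κ : Kind) (s N L' A : ℕ) (hA : s * N + L' ≤ A) :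
    On (elIn (Bx (0 : V d) A : Set (V d))) (G0 κ d s N L' A) := by
  sorry

theorem h0_local (κ : Kind) (s N A : ℕ) (ω ω' : El d → Bool)
    (h : ∀ e ∈ elIn (Bx (0 : V d) A : Set (V d)), ω e = ω' e) :
    h0 κ s N A ω = h0 κ s N A ω' := by
  sorry

/-- a core vertex is joined to a different vertex, so it is open (site percolation) -/
theorem core_open (hd : 1 ≤ d) (s N A : ℕ) (hs : 1 ≤ s) (hN : 3 ≤ N) (ω : El d → Bool) (v : V d)
    (h : core .site s N A ω v) : ω s(v, v) = true := by
  sorry

theorem join_adj (hd : 1 ≤ d) (κ : Kind) (s N L' A M : ℕ) (hs : 1 ≤ s) (hM : L' < s * M)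
    (hN : 2 * M + 1 ≤ N) (hA : s * N + L' ≤ A) (hsL : s ≤ L') (ω : El d → Bool) (z z' : V d)
    (hz : LatAdj z z') (h1 : shC (sc (s * N) z) ω ∈ G0 κ d s N L' A)
    (h2 : shC (sc (s * N) z') ω ∈ G0 κ d s N L' A) :
    JIn κ ω ((Bx (sc (s * N) z) A : Set (V d)) ∪ (Bx (sc (s * N) z') A : Set (V d)))
      (h0 κ s N A (shC (sc (s * N) z) ω) + sc (s * N) z)
      (h0 κ s N A (shC (sc (s * N) z') ω) + sc (s * N) z') := by
  sorry

end Pool.Agent.H46.RS
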