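import Pool.Agent.H46.RS.NonUniq
import Pool.Agent.H46.RS.JoinAdj
import Pool.Agent.H46.RS.Count
import Pool.Agent.H66.RS.ConnU

/-!
# RS module Good: good blocks are very likely

`p₁ = (p₀ + p) / 2`, `δ` with `1 - p = (1 - p₁) (1 - δ)^3` (as in `conn_c`), `j` from `conn_u`. Given `η`:
`m ≥ 1` with `P_{p₁}(Bx 0 m meets an infinite cluster) ≥ 1 - η/32` (`seed_inf`), `s = 2^a ≥ m`; `L' ≥ s` with
`P_p (NU κ 0 s L') ≤ η/32` (`nonuniq`); `M = L' + 1`; `k` large with `N = 2^(k-j-1-a) ≥ 2M+1`, `P(UU κ j k) ≥ 1 - η/4`.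
`s * N = 2^(k-j-1)`, `A = 4 * 2^k = 2^(j+3) * (s * N)`. On `UU` and if at least 7/8 of the boxes `Bx (sc s w) s`,
`w ∈ Bx 0 N`, meet an infinite `X`-cluster (Markov, `markov_count`): all these vertices are within `2^(k-j)` of `0`,
start open paths of `X` of length `2^k` and are joined in `Y` by paths of length `≤ 2^k`, so inside `Bx 0 A`; `v` := one
of them. Second condition: `markov_count` with `NU` (`nu_shift`, `shC_real`).
-/

open MeasureTheory Filter Topology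
open Pool.Agent.H17.IIC Pool.Agent.H41.QC Pool.Agent.H47.GM

namespace Pool.Agent.H46.RS

variable {d : ℕ}

/-- an infinite cluster contains open self-avoiding paths of every length -/
theorem pn_pos (κ : Kind) (ω : El d → Bool) (y : V d) (h : {z | (Gr κ ω).Reachable y z}.Infinite)
    (n : ℕ) : 0 < Pn κ ω n y := by
  sorry

theorem good_prob (κ : Kind) (hd : 2 ≤ d) (p₀ p : unitInterval) (h0p : (p₀ : ℝ) < p)
    (hp : (p : ℝ) < 1) (hθ : 0 < theta κ d p₀) (hU : Uniq κ d p) :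
    ∃ j : ℕ, ∀ η : ℝ, 0 < η → ∃ s N L' M : ℕ, 1 ≤ s ∧ s ≤ L' ∧ L' < s * M ∧ 2 * M + 1 ≤ N ∧
      s * N + L' ≤ 2 ^ j * (s * N) ∧
      1 - η ≤ (prodBern (El d) p).real (G0 κ d s N L' (2 ^ j * (s * N))) := by
  sorry

end Pool.Agent.H46.RS
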