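import Pool.Agent.H46.RS.Defs

/-!
# RS module NonUniq: two arms that are not joined are unlikely

`NU κ 0 l L'` (`L' ≥ l`) is local (elements inside `Bx 0 L'`) and decreasing in `L' ≥ l`: if `x` is joined to
the shell `L' + 1` inside `Bx 0 (L' + 1)` then it is joined to the shell `L'` inside `Bx 0 L'` (cut the walk at
its first vertex of the shell, see `Exit_walk` or helper75's `cross`), and not joined inside `Bx 0 (L' + 1)`
implies not joined inside `Bx 0 L'`. On the intersection over all `L'` some pair `x, y` of the finite box
`Bx 0 l` works for infinitely many, hence all, `L'` (pigeonhole): both clusters are infinite (`x` is joined to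
vertices at every distance) and `x, y` are not joined in any box, so they are not connected (a walk is contained
in a box). This has probability `0` by `Uniq`; continuity of the measure from above.
-/

open MeasureTheory Filter Topology
open Pool.Agent.H17.IIC Pool.Agent.H41.QC Pool.Agent.H47.GM

namespace Pool.Agent.H46.RS

variable {d : ℕ}

theorem nu_local (κ : Kind) (c : V d) {l L' : ℕ} :
    On (elIn (Bx c L' : Set (V d))) (NU κ c l L') := by
  sorry

theorem nu_shift (κ : Kind) (c a : V d) (l L' : ℕ) (ω : El d → Bool) :
    ω ∈ NU κ (c + a) l L' ↔ shC a ω ∈ NU κ c l L' := by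
  sorry

theorem nonuniq (κ : Kind) (p : unitInterval) (hU : Uniq κ d p) (l : ℕ) {η : ℝ} (hη : 0 < η) :
    ∃ L', l ≤ L' ∧ (prodBern (El d) p).real (NU κ (0 : V d) l L') ≤ η := by
  sorry

end Pool.Agent.H46.RS
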